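import Pool.Agent.Helper23.DD.Goals

/-!
# Packet DD CHX: induction over the legs
-/

open scoped ENNReal
open Finset

namespace Pool.Agent.Helper59.DD

open Pool.Agent.Helper92.Eps
open Pool.Agent.Helper99.ZZ
open Pool.Agent.Helper27.PB
open Pool.Agent.Helper23.DD

variable {B : Type} {D : ℕ}

theorem ih_mono (A : Alph B D) (x1 : ℕ → B → ℝ≥0∞) (r : ℕ) (G : List B → ℝ≥0∞) {K K' : ℝ≥0∞}
    (h : K ≤ K') (hI : IH A x1 r G K) : IH A x1 r G K' :=
  ⟨hI.1.trans h, fun hr b hb => (hI.2 hr b hb).trans (mul_le_mul_left h _)⟩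

theorem s_ne_zero (A : Alph B D) (hR : Ren A) (r : ℕ) : A.S r ≠ 0 :=
  (lt_of_lt_of_le one_pos (hR.S_one r)).ne'

theorem s_ne_top (A : Alph B D) (hR : Ren A) (r : ℕ) : A.S r ≠ ⊤ :=
  ne_top_of_le_ne_top (ENNReal.add_ne_top.mpr ⟨ENNReal.natCast_ne_top r, ENNReal.one_ne_top⟩)
    (hR.S_le r)

/-- The bound of the chain by induction over the legs. -/
theorem chain (h1 : STP_stmt) (A : Alph B D) (E : ℕ → List B → List B → Prop) (rbb : B → B)
    (hc : Calc A) (hR : Ren A) (hRA : ∀ n, RenAnti A n) (hrev : Rev A rbb) (Jm : ℕ) (C : ℝ≥0∞)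
    (x1 x2 : ℕ → B → ℝ≥0∞) (hC : 1 ≤ C) (hX : XB A E Jm C x1 x2) : ∀ (ds : List LG) (r : ℕ),
    Chn Jm r ds →
    IH A x1 r (GZ A E rbb ds r) (A.S r * ((2 * C) ^ ds.length * PP A x1 x2 r ds)) := by
  intro ds
  induction ds with
  | nil =>
    intro r _
    have e : A.S r * ((2 * C) ^ ([] : List LG).length * PP A x1 x2 r []) = A.S r := by
      show A.S r * ((2 * C) ^ 0 * 1) = A.S r
      rw [pow_zero, mul_one, mul_one]
    rw [e]
    refine ⟨?_, fun _ b _ => ?_⟩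
    · show GS A r (fun _ => 1) * A.S r ≤ A.S r
      rw [(Pool.Agent.Helper52.ZZ.GSB A hc).1 r, one_mul]
    · show A.S r ≤ A.S r * x1 (Nat.log 2 r) b
      exact le_mul_of_one_le_right zero_le (hX.one1 _ _)
  | cons d ds ih =>
    intro r hch
    obtain ⟨hA, hch'⟩ := hch
    obtain ⟨K', hK', hle⟩ := h1 A E rbb hc hR hRA hrev Jm C x1 x2 hC hX r d
      (GZ A E rbb ds d.r) _ hA (ih d.r hch')
    refine ih_mono A x1 r _ ?_ hK'
    have h2 : A.S d.r * K' ≤ A.S d.r * (A.S r * ((2 * C) ^ (ds.length + 1) *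
        (Ps A x1 x2 r d / A.S r * PP A x1 x2 d.r ds))) := by
      refine hle.trans (le_of_eq ?_)
      have h3 : A.S r * (Ps A x1 x2 r d / A.S r) = Ps A x1 x2 r d :=
        ENNReal.mul_div_cancel (s_ne_zero A hR r) (s_ne_top A hR r)
      calc 2 * C * (A.S d.r * ((2 * C) ^ ds.length * PP A x1 x2 d.r ds)) * Ps A x1 x2 r d
          = A.S d.r * ((2 * C) ^ (ds.length + 1) * PP A x1 x2 d.r ds) * Ps A x1 x2 r d := by
            rw [pow_succ]; ring
        _ = A.S d.r * ((2 * C) ^ (ds.length + 1) * PP A x1 x2 d.r ds) *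
            (A.S r * (Ps A x1 x2 r d / A.S r)) := by rw [h3]
        _ = _ := by ring
    have h4 : A.S r * ((2 * C) ^ (d :: ds).length * PP A x1 x2 r (d :: ds)) =
        A.S r * ((2 * C) ^ (ds.length + 1) * (Ps A x1 x2 r d / A.S r * PP A x1 x2 d.r ds)) := rfl
    rw [h4]
    exact (ENNReal.mul_le_mul_iff_right (s_ne_zero A hR _) (s_ne_top A hR _)).mp h2

/-- **CHX.** -/
theorem CHX (h1 : STP_stmt) (h2 : ZGZ_stmt) : CHX_stmt := by
  intro B D A E rbb hc hR hRA hrev hE Jm C x1 x2 hC hX ds hch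
  have h3 := h2 A E rbb hc hE hrev Jm ds 0 [] hch (Or.inl rfl)
  have h4 := (chain h1 A E rbb hc hR hRA hrev Jm C x1 x2 hC hX ds 0 hch).1
  have h5 : A.S 0 = 1 := by
    show ∑ c ∈ range (0 + 1), A.u c = 1
    rw [zero_add, sum_range_one, hR.u_zero]
  rw [h5, mul_one, one_mul] at h4
  have h6 : GS A 0 (GZ A E rbb ds 0) = GZ A E rbb ds 0 [] := if_pos rfl
  rw [h6] at h4
  exact h3.trans h4

end Pool.Agent.Helper59.DD
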